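import Pool.Agent.Helper3.PP.Good
import Pool.Agent.Helper3.PP.Poly

/-!
# Sparse multiples of primitive polynomials over GF(2) (MP_4ed2e5_nt)

If `y ^ (Q + 1) + α y + β = 0` with `α`, `β` in the field of `q` elements, `Q` a power of two, then `y` is a root of
the polynomial with six terms `1 + X^(q²-q) + X^(qQ-Q) + X^(q²(Q+1)-Q-q) + X^(q²+qQ-Q-1) + X^((q²-1)(Q+1))`, a power of
`X` times it is the determinant with the rows `(X^(Q+1), X, 1)`, `(X^(q(Q+1)), X^q, 1)`, `(X^(q²(Q+1)), X^(q²), 1)`.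
-/

set_option autoImplicit false

namespace Pool.Agent.Helper94.SM

open Polynomial Pool.Agent.Helper3.PP

/-- the polynomial with the terms `1, X^a, X^b, X^c, X^d, X^e` -/
noncomputable def six (a b c d e : ℕ) : (ZMod 2)[X] :=
  1 + X ^ a + X ^ b + X ^ c + X ^ d + X ^ e

theorem six_coeff {a b c d e : ℕ} (ha : 0 < a) (hb : 0 < b) (hc : 0 < c) (hd : 0 < d) (he : 0 < e) :
    (six a b c d e).coeff 0 = 1 := by
  simp [six, coeff_X_pow, ha.ne, hb.ne, hc.ne, hd.ne, he.ne]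

theorem six_deg {a b c d e m : ℕ} (ha : a ≤ m) (hb : b ≤ m) (hc : c ≤ m) (hd : d ≤ m) (he : e ≤ m) :
    (six a b c d e).natDegree ≤ m := by
  have h : ∀ k, k ≤ m → (X ^ k : (ZMod 2)[X]).natDegree ≤ m := fun k hk =>
    (natDegree_X_pow_le k).trans hk
  unfold six
  refine natDegree_add_le_of_degree_le (natDegree_add_le_of_degree_le (natDegree_add_le_of_degree_le
    (natDegree_add_le_of_degree_le (natDegree_add_le_of_degree_le ?_ (h a ha)) (h b hb)) (h c hc)) (h d hd)) (h e he)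
  rw [natDegree_one]
  exact Nat.zero_le m

theorem six_card (a b c d e : ℕ) : (six a b c d e).support.card ≤ 6 := by
  classical
  have hX : ∀ k : ℕ, (X ^ k : (ZMod 2)[X]).support.card ≤ 1 := by
    intro k
    rw [X_pow_eq_monomial]
    calc ((monomial k) (1 : ZMod 2)).support.card ≤ ({k} : Finset ℕ).card :=
          Finset.card_le_card (support_monomial_subset k 1)
      _ = 1 := Finset.card_singleton k
  have h1 : (1 : (ZMod 2)[X]).support.card ≤ 1 := by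
    have := hX 0
    rwa [pow_zero] at this
  have hadd : ∀ (f g : (ZMod 2)[X]) (m n : ℕ), f.support.card ≤ m → g.support.card ≤ n →
      (f + g).support.card ≤ m + n := by
    intro f g m n hf hg
    calc (f + g).support.card ≤ (f.support ∪ g.support).card := Finset.card_le_card support_add
      _ ≤ f.support.card + g.support.card := Finset.card_union_le _ _
      _ ≤ m + n := add_le_add hf hg
  unfold six
  exact hadd _ _ 5 1 (hadd _ _ 4 1 (hadd _ _ 3 1 (hadd _ _ 2 1 (hadd _ _ 1 1 h1 (hX a)) (hX b)) (hX c)) (hX d)) (hX e)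

section

variable {K : Type*} [Field K] [CharP K 2]

/-- the determinant vanishes -/
theorem det_zero (e q Q : ℕ) (hq : q = 2 ^ e) (y α β : K) (hα : α ^ q = α) (hβ : β ^ q = β)
    (hy : y ^ (Q + 1) + α * y + β = 0) :
    y ^ (Q + 1) * (y ^ q + (y ^ q) ^ q) + (y ^ (Q + 1)) ^ q * (y + (y ^ q) ^ q) +
      ((y ^ (Q + 1)) ^ q) ^ q * (y + y ^ q) = 0 := by
  have h2 : (2 : K) = 0 := by
    have := CharP.cast_eq_zero K 2
    exact_mod_cast this
  have hfr : ∀ A z : K, A + α * z + β = 0 → A ^ q + α * z ^ q + β = 0 := by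
    intro A z h
    have h3 : (A + α * z + β) ^ q = 0 := by
      rw [h, zero_pow (by rw [hq]; positivity)]
    have h4 : (A + α * z + β) ^ q = A ^ q + α ^ q * z ^ q + β ^ q := by
      rw [hq, add_pow_char_pow, add_pow_char_pow, mul_pow]
    rw [h4, hα, hβ] at h3
    exact h3
  have r0 := hy
  have r1 := hfr _ _ r0
  have r2 := hfr _ _ r1
  generalize y ^ (Q + 1) = A at r0 r1 r2 ⊢
  generalize A ^ q = A1 at r1 r2 ⊢
  generalize A1 ^ q = A2 at r2 ⊢
  generalize y ^ q = y1 at r1 r2 ⊢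
  generalize y1 ^ q = y2 at r2 ⊢
  linear_combination (y1 + y2) * r0 + (y + y2) * r1 + (y + y1) * r2 -
    (α * (y * y1 + y * y2 + y1 * y2) + β * (y + y1 + y2)) * h2

end

theorem sparse (l : ℕ) (K : Type) [Field K] [Algebra (ZMod 2) K] (q Q : ℕ) (hl : 1 ≤ l) (hq : q = 2 ^ (5 * l))
    (hQ : Q = 2 ^ l) (y α β : K) (hy0 : y ≠ 0) (hα : α ^ q = α) (hβ : β ^ q = β)
    (hy : y ^ (Q + 1) + α * y + β = 0) :
    aeval y (six (q ^ 2 - q) (q * Q - Q) (q ^ 2 * (Q + 1) - Q - q) (q ^ 2 + q * Q - Q - 1)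
      ((q ^ 2 - 1) * (Q + 1))) = 0 := by
  have : CharP K 2 := charP_of_injective_algebraMap (algebraMap (ZMod 2) K).injective 2
  have hd := det_zero (5 * l) q Q hq y α β hα hβ hy
  have hQ2 : 2 ≤ Q := by
    rw [hQ]
    calc 2 = 2 ^ 1 := rfl
      _ ≤ 2 ^ l := Nat.pow_le_pow_right (by norm_num) hl
  have hQq : Q ≤ q := by
    rw [hQ, hq]
    exact Nat.pow_le_pow_right (by norm_num) (by omega)
  have hq2 : 2 ≤ q := hQ2.trans hQq
  have hs : y ^ (Q + 1 + q) * aeval y (six (q ^ 2 - q) (q * Q - Q) (q ^ 2 * (Q + 1) - Q - q)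
      (q ^ 2 + q * Q - Q - 1) ((q ^ 2 - 1) * (Q + 1))) = 0 := by
    have hqq : q ≤ q ^ 2 := by nlinarith
    have hqQ : Q ≤ q * Q := by nlinarith
    have h1 : 1 ≤ q ^ 2 := by nlinarith
    have e3 : Q + q ≤ q ^ 2 * (Q + 1) := by nlinarith
    have e4 : Q + 1 ≤ q ^ 2 + q * Q := by nlinarith
    rw [← hd]
    unfold six
    simp only [map_add, map_pow, map_one, aeval_X]
    have f1 : y ^ (Q + 1 + q) * y ^ (q ^ 2 - q) = y ^ (Q + 1) * (y ^ q) ^ q := by
      rw [← pow_add, ← pow_mul, ← pow_add]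
      congr 1
      have : q * q = q ^ 2 := by ring
      omega
    have f2 : y ^ (Q + 1 + q) * y ^ (q * Q - Q) = (y ^ (Q + 1)) ^ q * y := by
      rw [← pow_add, ← pow_mul, ← pow_succ]
      congr 1
      have : (Q + 1) * q = q * Q + q := by ring
      omega
    have f3 : y ^ (Q + 1 + q) * y ^ (q ^ 2 * (Q + 1) - Q - q) = ((y ^ (Q + 1)) ^ q) ^ q * y := by
      rw [← pow_add, ← pow_mul, ← pow_mul, ← pow_succ]
      congr 1
      have : (Q + 1) * (q * q) = q ^ 2 * (Q + 1) := by ring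
      have : (Q + 1) * q * q = q ^ 2 * (Q + 1) := by ring
      omega
    have f4 : y ^ (Q + 1 + q) * y ^ (q ^ 2 + q * Q - Q - 1) = (y ^ (Q + 1)) ^ q * (y ^ q) ^ q := by
      rw [← pow_add, ← pow_mul, ← pow_mul, ← pow_add]
      congr 1
      have : (Q + 1) * q + q * q = q ^ 2 + q * Q + q := by ring
      omega
    have f5 : y ^ (Q + 1 + q) * y ^ ((q ^ 2 - 1) * (Q + 1)) = ((y ^ (Q + 1)) ^ q) ^ q * y ^ q := by
      rw [← pow_add, ← pow_mul, ← pow_mul, ← pow_add]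
      congr 1
      have h5 : (q ^ 2 - 1) * (Q + 1) = q ^ 2 * (Q + 1) - (Q + 1) := by
        rw [Nat.sub_mul, one_mul]
      have h6 : Q + 1 ≤ q ^ 2 * (Q + 1) := Nat.le_mul_of_pos_left _ (by omega)
      have : (Q + 1) * (q * q) = q ^ 2 * (Q + 1) := by ring
      have : (Q + 1) * q * q = q ^ 2 * (Q + 1) := by ring
      omega
    have f0 : y ^ (Q + 1 + q) = y ^ (Q + 1) * y ^ q := pow_add _ _ _
    calc y ^ (Q + 1 + q) * (1 + y ^ (q ^ 2 - q) + y ^ (q * Q - Q) + y ^ (q ^ 2 * (Q + 1) - Q - q) +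
          y ^ (q ^ 2 + q * Q - Q - 1) + y ^ ((q ^ 2 - 1) * (Q + 1)))
        = y ^ (Q + 1 + q) + y ^ (Q + 1 + q) * y ^ (q ^ 2 - q) + y ^ (Q + 1 + q) * y ^ (q * Q - Q) +
          y ^ (Q + 1 + q) * y ^ (q ^ 2 * (Q + 1) - Q - q) + y ^ (Q + 1 + q) * y ^ (q ^ 2 + q * Q - Q - 1) +
          y ^ (Q + 1 + q) * y ^ ((q ^ 2 - 1) * (Q + 1)) := by ring
      _ = _ := by
        rw [f1, f2, f3, f4, f5, f0]
        ring
  exact (mul_eq_zero.1 hs).resolve_left (pow_ne_zero _ hy0)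

/-- the degree of the minimal polynomial is at most `n` -/
theorem degree_le {K : Type} [Field K] [IsAlgClosed K] [Algebra (ZMod 2) K] (y : K) (n : ℕ) (hn : 0 < n)
    (hy : y ^ (2 ^ n) = y) (hint : IsIntegral (ZMod 2) y) : (minpoly (ZMod 2) y).natDegree ≤ n := by
  have : CharP K 2 := charP_of_injective_algebraMap (algebraMap (ZMod 2) K).injective 2
  obtain ⟨F, hFcard, hF⟩ := exists_fixed (K := K) n hn
  have : FiniteDimensional (ZMod 2) (IntermediateField.adjoin (ZMod 2) {y}) :=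
    IntermediateField.adjoin.finiteDimensional hint
  have : Finite (IntermediateField.adjoin (ZMod 2) {y}) := Module.finite_of_finite (ZMod 2)
  have : Fintype (IntermediateField.adjoin (ZMod 2) {y}) := Fintype.ofFinite _
  have hcard : Fintype.card (IntermediateField.adjoin (ZMod 2) {y}) = 2 ^ (minpoly (ZMod 2) y).natDegree := by
    rw [Module.card_eq_pow_finrank (K := ZMod 2), ZMod.card,
      IntermediateField.adjoin.finrank hint]
  have hfix : ∀ z ∈ IntermediateField.adjoin (ZMod 2) {y}, z ^ (2 ^ n) = z := by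
    intro z hz
    refine IntermediateField.adjoin_induction (ZMod 2) (p := fun z _ => z ^ (2 ^ n) = z) ?_ ?_ ?_ ?_ ?_ hz
    · intro x hx
      rw [Set.mem_singleton_iff.1 hx, hy]
    · intro c
      have hc : c = 0 ∨ c = 1 := by
        revert c; decide
      rcases hc with rfl | rfl
      · rw [map_zero, zero_pow (by positivity)]
      · rw [map_one, one_pow]
    · intro a b _ _ ha hb
      rw [add_pow_char_pow, ha, hb]
    · intro a _ ha
      rw [inv_pow, ha]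
    · intro a b _ _ ha hb
      rw [mul_pow, ha, hb]
  have h1 : Fintype.card (IntermediateField.adjoin (ZMod 2) {y}) ≤ F.card := by
    classical
    have h2 := Fintype.card_le_of_injective
      (fun z : IntermediateField.adjoin (ZMod 2) {y} => (⟨z.1, (hF z.1).2 (hfix z.1 z.2)⟩ : F))
      (fun a b hab => Subtype.ext (congrArg (fun t : F => t.1) hab))
    rwa [Fintype.card_coe] at h2
  rw [hcard, hFcard] at h1
  exact (Nat.pow_le_pow_iff_right (by norm_num : 1 < 2)).1 h1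

/-- Infinitely many degrees `n` with a primitive polynomial dividing a polynomial with six terms and degree less
than `n ^ 11`. -/
theorem main6 (N : ℕ) : ∃ n : ℕ, N ≤ n ∧
    ∃ p s : Polynomial (ZMod 2),
      p.natDegree = n ∧
      Irreducible p ∧
      p ∣ (Polynomial.X ^ (2 ^ n - 1) - 1) ∧
      (∀ k : ℕ, 0 < k → k < 2 ^ n - 1 → ¬ p ∣ (Polynomial.X ^ k - 1)) ∧
      p ∣ s ∧ s.coeff 0 = 1 ∧ s.support.card ≤ 6 ∧ s.natDegree < n ^ 11 := by
  obtain ⟨i, hi⟩ : ∃ i, i = max 16 N := ⟨_, rfl⟩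
  have hi16 : 16 ≤ i := hi ▸ le_max_left _ _
  have hiN : N ≤ i := hi ▸ le_max_right _ _
  obtain ⟨l, hl⟩ : ∃ l, l = 2 ^ i := ⟨_, rfl⟩
  have hil : i < l := hl ▸ Nat.lt_two_pow_self
  have hl1 : 1 ≤ l := by omega
  have hlQ : l < 2 ^ l := Nat.lt_two_pow_self
  obtain ⟨y, α, β, hord, hα, hβ, hy⟩ :=
    exists_y (K := AlgebraicClosure (ZMod 2)) i l hi16 hl
  obtain ⟨q, hq⟩ : ∃ q, q = 2 ^ (5 * l) := ⟨_, rfl⟩
  obtain ⟨Q, hQ⟩ : ∃ Q, Q = 2 ^ l := ⟨_, rfl⟩
  obtain ⟨n, hn⟩ : ∃ n, n = 5 * l * (2 ^ l + 1) := ⟨_, rfl⟩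
  have hn' : (2 ^ (5 * l)) ^ (2 ^ l + 1) = 2 ^ n := by rw [← pow_mul, hn]
  rw [hn'] at hord
  rw [← hq] at hα hβ
  rw [← hQ] at hy
  have hn0 : 0 < n := by rw [hn]; positivity
  have h2n : 2 ≤ 2 ^ n := by
    calc 2 = 2 ^ 1 := rfl
      _ ≤ 2 ^ n := Nat.pow_le_pow_right (by norm_num) hn0
  have hyp : y ^ (2 ^ n - 1) = 1 := by
    rw [← hord]
    exact pow_orderOf_eq_one y
  have hy0 : y ≠ 0 := by
    rintro rfl
    rw [zero_pow (by omega)] at hyp
    exact zero_ne_one hyp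
  have hyn : y ^ (2 ^ n) = y := by
    have : 2 ^ n = 2 ^ n - 1 + 1 := by omega
    rw [this, pow_succ, hyp, one_mul]
  have hint : IsIntegral (ZMod 2) y := by
    refine ⟨X ^ (2 ^ n - 1) - 1, ?_, ?_⟩
    · have := monic_X_pow_sub_C (1 : ZMod 2) (show 2 ^ n - 1 ≠ 0 by omega)
      rwa [C_1] at this
    · simp [hyp]
  have hroot := sparse l (AlgebraicClosure (ZMod 2)) q Q hl1 hq hQ y α β hy0 hα hβ hy
  have hQ2 : 2 ≤ Q := by
    rw [hQ]
    calc 2 = 2 ^ 1 := rfl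
      _ ≤ 2 ^ l := Nat.pow_le_pow_right (by norm_num) hl1
  have hqQ : q = Q ^ 5 := by rw [hq, hQ, ← pow_mul, mul_comm]
  have hQq : Q < q := by
    rw [hqQ]
    calc Q = Q ^ 1 := (pow_one Q).symm
      _ < Q ^ 5 := Nat.pow_lt_pow_right (by omega) (by norm_num)
  have hnQ : Q + 1 ≤ n := by
    rw [hn, hQ]
    exact Nat.le_mul_of_pos_left _ (by omega)
  have e2 : q < q ^ 2 := by nlinarith
  have e1 : Q < q * Q := by nlinarith
  have hbig : q * Q ≤ q ^ 2 := by nlinarith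
  have hM : (q ^ 2 - 1) * (Q + 1) = q ^ 2 * (Q + 1) - (Q + 1) := by rw [Nat.sub_mul, one_mul]
  have e5 : q ^ 2 * (Q + 1) = q ^ 2 * Q + q ^ 2 := by ring
  have e6 : q ^ 2 * 2 ≤ q ^ 2 * Q := Nat.mul_le_mul_left _ hQ2
  have hdeg : (six (q ^ 2 - q) (q * Q - Q) (q ^ 2 * (Q + 1) - Q - q) (q ^ 2 + q * Q - Q - 1)
      ((q ^ 2 - 1) * (Q + 1))).natDegree ≤ (q ^ 2 - 1) * (Q + 1) := by
    apply six_deg <;> omega
  have hlast : (q ^ 2 - 1) * (Q + 1) < n ^ 11 := by
    have h1 : q ^ 2 = Q ^ 10 := by rw [hqQ]; ring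
    have h2 : Q ^ 10 ≤ (Q + 1) ^ 10 := Nat.pow_le_pow_left (by omega) 10
    have h3 : (Q + 1) ^ 11 ≤ n ^ 11 := Nat.pow_le_pow_left hnQ 11
    have h4 : (q ^ 2 - 1) * (Q + 1) < (Q + 1) ^ 10 * (Q + 1) := by
      apply Nat.mul_lt_mul_of_pos_right _ (by omega)
      omega
    calc (q ^ 2 - 1) * (Q + 1) < (Q + 1) ^ 10 * (Q + 1) := h4
      _ = (Q + 1) ^ 11 := by ring
      _ ≤ n ^ 11 := h3
  refine ⟨n, by nlinarith [hn, hnQ, hlQ, hQ], minpoly (ZMod 2) y,
    six (q ^ 2 - q) (q * Q - Q) (q ^ 2 * (Q + 1) - Q - q) (q ^ 2 + q * Q - Q - 1)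
      ((q ^ 2 - 1) * (Q + 1)), ?_, minpoly.irreducible hint, ?_, ?_, minpoly.dvd _ _ hroot, ?_, six_card _ _ _ _ _,
    hdeg.trans_lt hlast⟩
  · exact le_antisymm (degree_le y n hn0 hyn hint) (minpoly_degree y n hn0 hord)
  · refine minpoly.dvd _ _ ?_
    simp [hyp]
  · intro k hk0 hk hdvd
    have h1 : aeval y (X ^ k - 1 : (ZMod 2)[X]) = 0 := by
      obtain ⟨s, hs⟩ := hdvd
      rw [hs, map_mul, minpoly.aeval, zero_mul]
    have h2 : y ^ k = 1 := by
      simpa [sub_eq_zero] using h1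
    have h3 := Nat.le_of_dvd hk0 (orderOf_dvd_of_pow_eq_one h2)
    omega
  · apply six_coeff
    · omega
    · omega
    · omega
    · omega
    · have : 0 < q ^ 2 - 1 := by omega
      positivity

end Pool.Agent.Helper94.SM
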